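import Pool.Agent.W425.BF.Stm

set_option autoImplicit false

namespace Pool.Agent.W616.BF

open Finset

/-- monomials without the variable `i` do not see a change of that variable -/
theorem prod_update {p n : ℕ} (m : Fin n → ℕ) (i : Fin n) (h : m i = 0) (y : Fin n → ZMod p)
    (c : ZMod p) : ∏ x, (Function.update y i c) x ^ m x = ∏ x, y x ^ m x := by
  refine Finset.prod_congr rfl fun x _ => ?_
  by_cases hx : x = i
  · subst hx; simp [h]
  · rw [Function.update_of_ne hx]

/-- the monomial which is linear in the variable `i` -/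
theorem prod_split {p n : ℕ} (m : Fin n → ℕ) (i : Fin n) (h : m i = 1) (y : Fin n → ZMod p) :
    ∏ x, y x ^ m x = y i * ∏ x ∈ Finset.univ.erase i, y x ^ m x := by
  rw [← Finset.mul_prod_erase Finset.univ _ (Finset.mem_univ i), h, pow_one]

theorem main : Pool.Agent.W425.BF.TaskFCT := by
  intro p hp n k m i j0 τ0 b hj0 hτ hb
  classical
  have hj0n : j0 ∉ τ0 := fun h => by
    have := hτ j0 h
    omega
  set M : (Fin n → ZMod p) → ZMod p := fun y => ∏ x ∈ Finset.univ.erase i, y x ^ m j0 x with hM
  set G : (Fin n → ZMod p) → ZMod p := fun y => ∑ j ∈ τ0, b j * ∏ x, y x ^ m j x with hG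
  have hGu : ∀ y c, G (Function.update y i c) = G y := by
    intro y c
    simp only [hG]
    refine Finset.sum_congr rfl fun j hj => ?_
    rw [prod_update (m j) i (hτ j hj)]
  have hMu : ∀ y c, M (Function.update y i c) = M y := by
    intro y c
    simp only [hM]
    refine Finset.prod_congr rfl fun x hx => ?_
    rw [Function.update_of_ne (Finset.ne_of_mem_erase hx)]
  have hfull : ∀ y : Fin n → ZMod p, ∑ j ∈ insert j0 τ0, b j * ∏ x, y x ^ m j x =
      b j0 * (y i * M y) + G y := by
    intro y
    rw [Finset.sum_insert hj0n, prod_split (m j0) i hj0]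
  have hM0 : ∀ y : Fin n → ZMod p, (∀ x, y x ≠ 0) → M y ≠ 0 := by
    intro y hy
    simp only [hM]
    exact Finset.prod_ne_zero_iff.2 fun x _ => pow_ne_zero _ (hy x)
  set T : Finset (Fin n → ZMod p) := Fintype.piFinset (fun _ => Finset.univ.erase (0 : ZMod p))
    with hT
  have hTm : ∀ y, y ∈ T ↔ ∀ x, y x ≠ 0 := by
    intro y
    simp [hT, Fintype.mem_piFinset]
  have hTc : T.card = (p - 1) ^ n := by
    rw [hT, Fintype.card_piFinset]
    simp [Finset.card_erase_of_mem, ZMod.card]
  have e1 : {y : Fin n → ZMod p | (∀ x, y x ≠ 0) ∧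
      ∑ j ∈ insert j0 τ0, b j * ∏ x, y x ^ m j x = 0} =
      ((T.filter fun y => b j0 * (y i * M y) + G y = 0 : Finset (Fin n → ZMod p)) :
        Set (Fin n → ZMod p)) := by
    ext y
    rw [Set.mem_setOf_eq, Finset.mem_coe, Finset.mem_filter, hTm, hfull]
  have e2 : {y : Fin n → ZMod p | (∀ x, y x ≠ 0) ∧ ∑ j ∈ τ0, b j * ∏ x, y x ^ m j x = 0} =
      ((T.filter fun y => G y = 0 : Finset (Fin n → ZMod p)) : Set (Fin n → ZMod p)) := by
    ext y
    rw [Set.mem_setOf_eq, Finset.mem_coe, Finset.mem_filter, hTm]
  rw [e1, e2, Set.ncard_coe_finset, Set.ncard_coe_finset, ← hTc]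
  have hcard : (T.filter fun y => ¬ G y = 0).card =
      ((Finset.univ.erase (0 : ZMod p)) ×ˢ
        (T.filter fun y => b j0 * (y i * M y) + G y = 0)).card := by
    refine Finset.card_nbij'
      (fun y => (y i, Function.update y i (-(G y) / (b j0 * M y))))
      (fun q => Function.update q.2 i q.1) ?_ ?_ ?_ ?_
    · intro y hy
      rw [Finset.mem_coe, Finset.mem_filter, hTm] at hy
      obtain ⟨hy1, hy2⟩ := hy
      have hMy := hM0 y hy1
      have hbm : b j0 * M y ≠ 0 := mul_ne_zero hb hMy
      rw [Finset.mem_coe, Finset.mem_product]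
      refine ⟨Finset.mem_erase.2 ⟨hy1 i, Finset.mem_univ _⟩, ?_⟩
      rw [Finset.mem_filter, hTm]
      refine ⟨?_, ?_⟩
      · intro x
        by_cases hx : x = i
        · subst hx
          simp only [Function.update_self]
          exact div_ne_zero (neg_ne_zero.2 hy2) hbm
        · simp only [Function.update_of_ne hx]
          exact hy1 x
      · simp only [hMu, hGu, Function.update_self]
        field_simp
        ring
    · intro q hq
      rw [Finset.mem_coe, Finset.mem_product, Finset.mem_filter, hTm] at hq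
      obtain ⟨hq1, hq2, hq3⟩ := hq
      have hq1' : q.1 ≠ 0 := Finset.ne_of_mem_erase hq1
      have hMq := hM0 q.2 hq2
      rw [Finset.mem_coe, Finset.mem_filter, hTm]
      refine ⟨?_, ?_⟩
      · intro x
        by_cases hx : x = i
        · subst hx
          simpa using hq1'
        · simp only [Function.update_of_ne hx]
          exact hq2 x
      · rw [hGu]
        intro h0
        rw [h0, add_zero] at hq3
        exact (mul_ne_zero hb (mul_ne_zero (hq2 i) hMq)) hq3
    · intro y _
      simp
    · intro q hq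
      rw [Finset.mem_coe, Finset.mem_product, Finset.mem_filter, hTm] at hq
      obtain ⟨hq1, hq2, hq3⟩ := hq
      have hMq := hM0 q.2 hq2
      have hbm : b j0 * M q.2 ≠ 0 := mul_ne_zero hb hMq
      have hval : -(G q.2) / (b j0 * M q.2) = q.2 i := by
        rw [div_eq_iff hbm]
        linear_combination -hq3
      ext x
      · simp
      · simp [hGu, hMu, hval]
  have hsplit := Finset.card_filter_add_card_filter_not (s := T) (fun y => G y = 0)
  rw [Finset.card_product, Finset.card_erase_of_mem (Finset.mem_univ _), Finset.card_univ,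
    ZMod.card] at hcard
  rw [← hsplit, hcard]
  ring

end Pool.Agent.W616.BF
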